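import Pool.Agent.Lib.MP_edb5be_nt.PD.Iface2
import Pool.Agent.Lib.MP_edb5be_nt.PD.H57.Dens

/-!
Project PD (MP_edb5be_nt), module VLOW: lower bound for the number of words of weight
about `2 ^ (-L)` (helper92).
-/

set_option autoImplicit false

namespace Pool.Agent.Lib.MP_edb5be_nt.PD.H92

open Finset Pool.Agent.Lib.MP_edb5be_nt.EX

theorem per_mul {f : ℤ → ℝ} {q : ℤ} (h : ∀ x, f (x + q) = f x) (k : ℕ) (x : ℤ) :
    f (x + k * q) = f x := by
  induction k with
  | zero => simp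
  | succ k ih =>
    have e : x + ((k + 1 : ℕ) : ℤ) * q = (x + k * q) + q := by push_cast; ring
    rw [e, h, ih]

theorem per_pow {f : ℤ → ℝ} {a b : ℕ} (hab : a ≤ b) (h : ∀ x, f (x + 3 ^ a) = f x) (x : ℤ) :
    f (x + 3 ^ b) = f x := by
  have e : (3 : ℤ) ^ b = ((3 ^ (b - a) : ℕ) : ℤ) * 3 ^ a := by
    push_cast
    rw [← pow_add, Nat.sub_add_cancel hab]
  rw [e]
  exact per_mul h _ x

theorem gw_per (h1 : BwFStatement) (h2 : MeanStatement) (m b : ℕ) (z : ℤ) :
    Gw m b (z + 3 ^ m) = Gw m b z := by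
  have h := (h2 m 0 (Bw m b) (fun _ => 1) (fun u hu => ((h1.1 m b u).1 hu).1)
    (fun x => rfl)).1 z
  simpa [Gw] using h

theorem ew_per (h1 : BwFStatement) (h2 : MeanStatement) (m b J : ℕ) (z : ℤ) :
    Ew m b J (z + 3 ^ J) = Ew m b J z := by
  unfold Ew
  exact sum_congr rfl fun s _ => by rw [gw_per h1 h2]

/-- the difference between the density and its average -/
noncomputable def dd (m b J : ℕ) (z : ℤ) : ℝ := |Gw m b z - Ew m b J z|

theorem dd_per (h1 : BwFStatement) (h2 : MeanStatement) {m b J : ℕ} (hJ : J ≤ m) (z : ℤ) :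
    dd m b J (z + 3 ^ m) = dd m b J z := by
  unfold dd
  rw [gw_per h1 h2, per_pow hJ (ew_per h1 h2 m b J)]

theorem dd_sum (h1 : BwFStatement) (h2 : MeanStatement) {m b J N : ℕ} (hJ : J ≤ m) (hN : m ≤ N) :
    ∑ z ∈ range (3 ^ N), dd m b J z = 3 ^ (N - m) * ∑ z ∈ range (3 ^ m), dd m b J z := by
  have h := H57.sum_periods (q := 3 ^ m) (f := dd m b J)
    (fun x => by push_cast; exact dd_per h1 h2 hJ x) 0 (3 ^ (N - m))
  have e : 3 ^ (N - m) * 3 ^ m = 3 ^ N := by rw [← pow_add, Nat.sub_add_cancel hN]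
  rw [e] at h
  simpa using h

theorem gw_card (h1 : BwFStatement) (h4 : WindowStatement) (L m : ℕ) (z : ℤ) :
    Gw m (L + lb m) z / 2 ≤ (((Bw m (L + lb m)).filter (Ad z)).card : ℝ) / 2 ^ L := by
  have hw : ∀ u ∈ (Bw m (L + lb m)).filter (Ad z), wt u * (fun _ : ℤ => (1 : ℝ)) (zz z u) ≤
      2 / 2 ^ L := by
    intro u hu
    have h := (h1.1 m (L + lb m) u).1 (mem_filter.1 hu).1
    have h3 : (3 : ℝ) ^ m ≤ 2 ^ (lb m + 1) := by
      exact_mod_cast ((h4.1 m).2.1).le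
    simp only [wt, mul_one]
    rw [h.1, h.2.2, div_le_div_iff₀ (by positivity) (by positivity)]
    calc (3 : ℝ) ^ m * 2 ^ L ≤ 2 ^ (lb m + 1) * 2 ^ L := by
          exact mul_le_mul_of_nonneg_right h3 (by positivity)
      _ = 2 * 2 ^ (L + lb m) := by rw [pow_succ, pow_add]; ring
  have h := sum_le_card_nsmul _ _ _ hw
  have e : Gw m (L + lb m) z = ∑ u ∈ (Bw m (L + lb m)).filter (Ad z),
      wt u * (fun _ : ℤ => (1 : ℝ)) (zz z u) := rfl
  rw [← e, nsmul_eq_mul] at h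
  calc Gw m (L + lb m) z / 2 ≤
      ((((Bw m (L + lb m)).filter (Ad z)).card : ℝ) * (2 / 2 ^ L)) / 2 := by linarith
    _ = _ := by ring

theorem fd_nonneg (J : ℕ) (z : ℤ) : 0 ≤ Fd J z := by
  unfold Fd su
  exact sum_nonneg fun u _ => by unfold wt; positivity

theorem vlow (h1 : BwFStatement) (h2 : MeanStatement) (h3 : GMixStatement)
    (h4 : WindowStatement) (h5 : EwLowStatement) : VLowStatement := by
  obtain ⟨c, hc, hE⟩ := h5
  refine ⟨c / 2, by positivity, fun A => ?_⟩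
  obtain ⟨C, hC, hG⟩ := h3 A
  refine ⟨2 * C, by positivity, fun L J hL hJ hJL => ?_⟩
  obtain ⟨hcard, hI⟩ := h4.2 L hL
  have hJm : ∀ m ∈ IL L, J ≤ m := by
    intro m hm
    have := (hI m hm).1
    nlinarith
  refine ⟨fun z => (1 / 2) * ∑ m ∈ IL L, dd m (L + lb m) J z, fun z => ?_, fun z => ?_, ?_,
    fun z => ?_⟩
  · exact mul_nonneg (by norm_num) (sum_nonneg fun m _ => abs_nonneg _)
  · have h : ∀ m ∈ IL L, dd m (L + lb m) J (z + 3 ^ (3 * L)) = dd m (L + lb m) J z :=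
      fun m hm => per_pow (hI m hm).2 (dd_per h1 h2 (hJm m hm)) z
    simp only [sum_congr rfl h]
  · have hm : ∀ m ∈ IL L, ∑ z ∈ range (3 ^ (3 * L)), dd m (L + lb m) J z ≤
        C / J ^ A * 3 ^ (3 * L) := by
      intro m hm
      rw [dd_sum h1 h2 (hJm m hm) (hI m hm).2]
      have h := hG m (L + lb m) J hJ (hJm m hm)
      calc (3 : ℝ) ^ (3 * L - m) * ∑ z ∈ range (3 ^ m), dd m (L + lb m) J z ≤
          3 ^ (3 * L - m) * (C / J ^ A * 3 ^ m) :=
            mul_le_mul_of_nonneg_left h (by positivity)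
        _ = C / J ^ A * (3 ^ (3 * L - m) * 3 ^ m) := by ring
        _ = _ := by rw [← pow_add, Nat.sub_add_cancel (hI m hm).2]
    have hcardI : ((IL L).card : ℝ) ≤ 3 * L := by
      have : (IL L).card ≤ 3 * L := by
        unfold IL
        exact (card_filter_le _ _).trans (by simp)
      exact_mod_cast this
    have h3 : (0 : ℝ) < 3 ^ (3 * L) := by positivity
    rw [div_le_iff₀ h3, ← mul_sum, sum_comm]
    have hs := sum_le_card_nsmul _ _ _ hm
    rw [nsmul_eq_mul] at hs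
    have hp : 0 ≤ C / (J : ℝ) ^ A * 3 ^ (3 * L) := by positivity
    calc (1 / 2 : ℝ) * ∑ m ∈ IL L, ∑ z ∈ range (3 ^ (3 * L)), dd m (L + lb m) J z ≤
        (1 / 2) * (((IL L).card : ℝ) * (C / J ^ A * 3 ^ (3 * L))) := by linarith
      _ ≤ (1 / 2) * ((3 * L) * (C / J ^ A * 3 ^ (3 * L))) := by
          have := mul_le_mul_of_nonneg_right hcardI hp
          linarith
      _ ≤ 2 * L * (C / J ^ A * 3 ^ (3 * L)) := by
          have h0 : 0 ≤ (L : ℝ) * (C / J ^ A * 3 ^ (3 * L)) := by positivity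
          nlinarith
      _ = 2 * C * L / J ^ A * 3 ^ (3 * L) := by ring
  · have hF := fd_nonneg J z
    have hsq : 0 < √(L : ℝ) := Real.sqrt_pos.2 (by
      have : 0 < L := by omega
      exact_mod_cast this)
    have hterm : ∀ m ∈ IL L, (1 / 2) * (c / √(L : ℝ) * Fd J z) -
        (1 / 2) * dd m (L + lb m) J z ≤
        (((Bw m (L + lb m)).filter (Ad z)).card : ℝ) / 2 ^ L := by
      intro m hm
      have a1 := gw_card h1 h4 L m z
      have a2 := hE L J m z hL hJ hJL hm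
      have a3 : Ew m (L + lb m) J z - Gw m (L + lb m) z ≤ dd m (L + lb m) J z := by
        unfold dd
        rw [abs_sub_comm]
        exact le_abs_self _
      linarith
    have hsum := sum_le_sum hterm
    rw [sum_sub_distrib, sum_const, ← mul_sum, nsmul_eq_mul] at hsum
    have hk : c / 2 * Fd J z ≤ ((IL L).card : ℝ) * (1 / 2 * (c / √(L : ℝ) * Fd J z)) := by
      have h0 : 0 ≤ 1 / 2 * (c / √(L : ℝ) * Fd J z) := by positivity
      calc c / 2 * Fd J z = √(L : ℝ) * (1 / 2 * (c / √(L : ℝ) * Fd J z)) := by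
            field_simp
        _ ≤ _ := mul_le_mul_of_nonneg_right hcard h0
    unfold VL
    linarith

end Pool.Agent.Lib.MP_edb5be_nt.PD.H92
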